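import Pool.Agent.Helper35.LIM.Defs
import Pool.Agent.Helper91.TTT.Exotic
import Pool.Agent.Helper35.IP.Trace

/-!
L4a: extreme traces of finite conditional dimension over finite orbits.
-/

set_option autoImplicit false

open MeasureTheory Finset Filter Topology Helper17.FU Helper17.FUGroup
open Helper75.RE (arc)
open Helper91.TTT (GG IsTr)
open Helper58.FX (ft Erg)
open scoped ENNReal

namespace Helper36.LIMA

open Helper35.LIM (orbFt)
open Helper35.AG

theorem sum_shift {M : Type*} [AddCommMonoid M] (f : ℕ → M) (i : ℕ) (h : f i = f 0) :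
    ∑ a ∈ range i, f (a + 1) = ∑ a ∈ range i, f a := by
  have h1 := Finset.sum_range_succ f i
  have h2 := Finset.sum_range_succ' f i
  rcases i with _ | i
  · simp
  · rw [Finset.sum_range_succ (fun a => f (a + 1)), Finset.sum_range_succ' f, h]

theorem orb_two (r : Tor) (i j : ℕ) (hr : (2 ^ i : ℕ) • r = r) (n : ℤ) :
    orbFt ((2 : ℕ) • r) i j n = orbFt r i j n := by
  unfold orbFt
  congr 1
  have := sum_shift (fun a => ∑ b ∈ range j, (fourier n ((2 ^ a * 3 ^ b : ℕ) • r) : ℂ)) i (by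
    refine Finset.sum_congr rfl fun b _ => ?_
    rw [mul_comm, mul_smul, hr, pow_zero, one_mul])
  rw [← this]
  refine Finset.sum_congr rfl fun a _ => Finset.sum_congr rfl fun b _ => ?_
  rw [smul_smul]
  congr 2
  ring

theorem orb_three (r : Tor) (i j : ℕ) (hr : (3 ^ j : ℕ) • r = r) (n : ℤ) :
    orbFt ((3 : ℕ) • r) i j n = orbFt r i j n := by
  unfold orbFt
  congr 1
  refine Finset.sum_congr rfl fun a _ => ?_
  have := sum_shift (fun b => (fourier n ((2 ^ a * 3 ^ b : ℕ) • r) : ℂ)) j (by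
    rw [mul_smul, hr, pow_zero, mul_one])
  rw [← this]
  refine Finset.sum_congr rfl fun b _ => ?_
  rw [smul_smul]
  congr 2
  ring

theorem per_smul (r : Tor) (i N : ℕ) (hr : i • r = r) : i • (N • r) = N • r := by
  rw [smul_smul, mul_comm, mul_smul, hr]

theorem orb_const (r : Tor) (i j : ℕ) (hri : (2 ^ i : ℕ) • r = r) (hrj : (3 ^ j : ℕ) • r = r)
    (n : ℤ) (a b : ℕ) : orbFt ((2 ^ a * 3 ^ b : ℕ) • r) i j n = orbFt r i j n := by
  induction a with
  | zero =>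
    induction b with
    | zero => simp
    | succ b ih =>
      have e : ((2 ^ 0 * 3 ^ (b + 1) : ℕ) • r) = (3 : ℕ) • ((2 ^ 0 * 3 ^ b : ℕ) • r) := by
        rw [smul_smul]
        congr 1
        ring
      rw [e, orb_three _ _ _ (per_smul _ _ _ hrj), ih]
  | succ a ih =>
    have e : ((2 ^ (a + 1) * 3 ^ b : ℕ) • r) = (2 : ℕ) • ((2 ^ a * 3 ^ b : ℕ) • r) := by
      rw [smul_smul]
      congr 1
      ring
    rw [e, orb_two _ _ _ (per_smul _ _ _ hri), ih]

/-- the orbit measure -/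
noncomputable def orbM (r : Tor) (i j : ℕ) : Measure Tor :=
  ((i * j : ℕ) : ℝ≥0∞)⁻¹ • ∑ p ∈ range i ×ˢ range j,
    Measure.dirac ((2 ^ p.1 * 3 ^ p.2 : ℕ) • r)

theorem orbM_prob (r : Tor) (i j : ℕ) (hi : 0 < i) (hj : 0 < j) :
    IsProbabilityMeasure (orbM r i j) := by
  refine ⟨?_⟩
  unfold orbM
  rw [Measure.smul_apply, Measure.finsetSum_apply]
  simp only [measure_univ, Finset.sum_const, Finset.card_product, Finset.card_range, smul_eq_mul,
    nsmul_eq_mul, mul_one]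
  rw [ENNReal.inv_mul_cancel]
  · have := Nat.mul_pos hi hj
    exact_mod_cast this.ne'
  · exact ENNReal.natCast_ne_top _

theorem int_orbM (r : Tor) (i j : ℕ) (f : Tor → ℂ) (hf : Continuous f) :
    ∫ x, f x ∂(orbM r i j) =
      (1 / ((i : ℂ) * j)) * ∑ a ∈ range i, ∑ b ∈ range j, f ((2 ^ a * 3 ^ b : ℕ) • r) := by
  unfold orbM
  rw [integral_smul_measure, integral_finsetSum_measure]
  · simp only [integral_dirac]
    rw [← Finset.sum_product']
    rw [ENNReal.toReal_inv, ENNReal.toReal_natCast, Complex.real_smul]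
    push_cast
    rw [one_div]
  · intro p _
    exact (hf.integrable_of_hasCompactSupport (HasCompactSupport.of_compactSpace _))

theorem ft_orbM (r : Tor) (i j : ℕ) (n : ℤ) :
    ∫ x, (fourier n x : ℂ) ∂(orbM r i j) = orbFt r i j n :=
  int_orbM r i j _ (fourier n).continuous

theorem orbM_inv (r : Tor) (i j : ℕ) (hi : 0 < i) (hj : 0 < j) (hri : (2 ^ i : ℕ) • r = r)
    (hrj : (3 ^ j : ℕ) • r = r) : Inv (orbM r i j) := by
  haveI := orbM_prob r i j hi hj
  have key : ∀ N : ℕ, (∀ n : ℤ, orbFt (N • r) i j n = orbFt r i j n) →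
      MeasurePreserving (fun x : Tor => N • x) (orbM r i j) (orbM r i j) := by
    intro N hN
    have hm : Measurable (fun x : Tor => N • x) := by fun_prop
    refine ⟨hm, ?_⟩
    haveI : IsProbabilityMeasure ((orbM r i j).map (fun x : Tor => N • x)) :=
      Measure.isProbabilityMeasure_map hm.aemeasurable
    apply Helper17.TranslM.eq_of_fourier
    intro m
    rw [integral_map hm.aemeasurable (fourier m).continuous.aestronglyMeasurable]
    have h1 := ft_orbM r i j m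
    rw [h1, ← hN m, int_orbM r i j (fun x => (fourier m (N • x) : ℂ)) (by fun_prop)]
    unfold orbFt
    congr 1
    refine Finset.sum_congr rfl fun a _ => Finset.sum_congr rfl fun b _ => ?_
    rw [smul_smul, smul_smul, mul_comm]
  exact ⟨key 2 fun n => orb_two r i j hri n, key 3 fun n => orb_three r i j hrj n⟩

/-- the complement of the orbit is null -/
theorem orbM_null (r : Tor) (i j : ℕ) :
    orbM r i j {x | ¬ ∃ a b : ℕ, x = (2 ^ a * 3 ^ b : ℕ) • r} = 0 := by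
  unfold orbM
  rw [Measure.smul_apply, Measure.finsetSum_apply, Finset.sum_eq_zero, smul_zero]
  intro p _
  have : ((2 ^ p.1 * 3 ^ p.2 : ℕ) • r) ∉ {x : Tor | ¬ ∃ a b : ℕ, x = (2 ^ a * 3 ^ b : ℕ) • r} := by
    intro h
    exact h ⟨p.1, p.2, rfl⟩
  have hc : MeasurableSet {x : Tor | ¬ ∃ a b : ℕ, x = (2 ^ a * 3 ^ b : ℕ) • r} := by
    have e : {x : Tor | ¬ ∃ a b : ℕ, x = (2 ^ a * 3 ^ b : ℕ) • r} =
        (⋃ a : ℕ, ⋃ b : ℕ, {(2 ^ a * 3 ^ b : ℕ) • r})ᶜ := by
      ext x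
      simp only [Set.mem_ofPred_eq, Set.mem_compl_iff, Set.mem_iUnion, Set.mem_singleton_iff]
    rw [e]
    exact (MeasurableSet.iUnion fun a => MeasurableSet.iUnion fun b =>
      measurableSet_singleton _).compl
  rw [Measure.dirac_apply' _ hc, Set.indicator_of_notMem this]

/-- an invariant measure on the orbit is the orbit measure -/
theorem ft_eq {μ : Measure Tor} [IsProbabilityMeasure μ] (hμ : Inv μ) (r : Tor) (i j : ℕ)
    (hi : 0 < i) (hj : 0 < j)
    (hri : (2 ^ i : ℕ) • r = r) (hrj : (3 ^ j : ℕ) • r = r)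
    (h0 : μ {x | ¬ ∃ a b : ℕ, x = (2 ^ a * 3 ^ b : ℕ) • r} = 0) (n : ℤ) :
    ∫ x, (fourier n x : ℂ) ∂μ = orbFt r i j n := by
  have hint : ∀ f : Tor → ℂ, Continuous f → Integrable f μ := fun f hf =>
    hf.integrable_of_hasCompactSupport (HasCompactSupport.of_compactSpace _)
  have h1 : ∫ x, orbFt x i j n ∂μ = ∫ x, (fourier n x : ℂ) ∂μ := by
    unfold orbFt
    rw [integral_const_mul, integral_finsetSum]
    · have e : ∀ a ∈ range i, ∫ x, ∑ b ∈ range j, (fourier n ((2 ^ a * 3 ^ b : ℕ) • x) : ℂ) ∂μ =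
          j * ∫ x, (fourier n x : ℂ) ∂μ := by
        intro a _
        rw [integral_finsetSum]
        · rw [Finset.sum_congr rfl (g := fun _ => ∫ x, (fourier n x : ℂ) ∂μ), Finset.sum_const,
            Finset.card_range, nsmul_eq_mul]
          intro b _
          rw [← Helper25.CG.ft_inv hμ n a b]
          refine integral_congr_ae (Eventually.of_forall fun x => ?_)
          simp only [fourier_apply]
          congr 2
          rw [← natCast_zsmul, smul_smul]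
          push_cast
          rfl
        · intro b _
          exact hint _ (by fun_prop)
      rw [Finset.sum_congr rfl e, Finset.sum_const, Finset.card_range, nsmul_eq_mul]
      have hi' : (i : ℂ) ≠ 0 := by exact_mod_cast hi.ne'
      have hj' : (j : ℂ) ≠ 0 := by exact_mod_cast hj.ne'
      field_simp
    · intro a _
      exact hint _ (by fun_prop)
  rw [← h1]
  have h2 : (fun x => orbFt x i j n) =ᵐ[μ] fun _ => orbFt r i j n := by
    rw [Filter.EventuallyEq, ae_iff]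
    refine measure_mono_null ?_ h0
    intro x hx hex
    obtain ⟨a, b, rfl⟩ := hex
    exact hx (orb_const r i j hri hrj n a b)
  rw [integral_congr_ae h2, integral_const]
  simp

variable {s2 s3 t : Equiv.Perm ℚ}

/-- the set of the traces over the orbit is extreme -/
theorem isExtreme_orb (h2 : ∀ x : ℚ, s2 x = 2 * x) (h3 : ∀ x : ℚ, s3 x = 3 * x)
    (ht : ∀ x : ℚ, t x = x + 1) {τ : GG s2 s3 t} (hτ : (τ : Equiv.Perm ℚ) = t)
    (r : Tor) (i j : ℕ) (hi : 0 < i) (hj : 0 < j) (hri : (2 ^ i : ℕ) • r = r)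
    (hrj : (3 ^ j : ℕ) • r = r) :
    IsExtreme ℝ (TR (GG s2 s3 t))
      {ψ : GG s2 s3 t → ℂ | ψ ∈ TR (GG s2 s3 t) ∧ ∀ n : ℤ, ψ (τ ^ n) = orbFt r i j n} := by
  haveI := orbM_prob r i j hi hj
  refine ⟨fun ψ hψ => hψ.1, ?_⟩
  rintro ψ₁ hψ₁ ψ₂ hψ₂ ψ ⟨hψ, hn⟩ ⟨a, b, ha, hb, hab, rfl⟩
  refine ⟨hψ₁, ?_⟩
  obtain ⟨μ₁, hμ₁p, hμ₁, hi₁⟩ := exists_measure h2 h3 ht hτ hψ₁
  obtain ⟨μ₂, hμ₂p, hμ₂, hi₂⟩ := exists_measure h2 h3 ht hτ hψ₂
  have hint : ∀ (c : ℝ) (κ : Measure Tor) (_ : IsProbabilityMeasure κ) (k : ℤ),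
      Integrable (fun x => (fourier k x : ℂ)) (ENNReal.ofReal c • κ) := fun c κ _ k =>
    ((fourier k).continuous.integrable_of_hasCompactSupport
      (HasCompactSupport.of_compactSpace _)).smul_measure ENNReal.ofReal_ne_top
  have hfin : ∀ (c : ℝ) (κ : Measure Tor) (_ : IsProbabilityMeasure κ),
      IsFiniteMeasure (ENNReal.ofReal c • κ) := fun c κ _ => ⟨by
    rw [Measure.smul_apply, measure_univ, smul_eq_mul, mul_one]
    exact ENNReal.ofReal_lt_top⟩
  haveI := hfin a μ₁ hμ₁p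
  haveI := hfin b μ₂ hμ₂p
  have hdec : orbM r i j = ENNReal.ofReal a • μ₁ + ENNReal.ofReal b • μ₂ := by
    apply Helper17.TranslM.eq_of_fourier
    intro m
    rw [integral_add_measure (hint _ _ hμ₁p _) (hint _ _ hμ₂p _), integral_smul_measure,
      integral_smul_measure, ENNReal.toReal_ofReal ha.le, ENNReal.toReal_ofReal hb.le]
    rw [hμ₁, hμ₂]
    have := ft_orbM r i j m
    rw [this, ← hn m, Pi.add_apply, Pi.smul_apply, Pi.smul_apply]
  intro n
  rw [← hμ₁]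
  refine ft_eq hi₁ r i j hi hj hri hrj ?_ n
  have h0 := orbM_null r i j
  rw [hdec, Measure.add_apply, Measure.smul_apply, Measure.smul_apply] at h0
  have h1 := (add_eq_zero.1 h0).1
  rw [smul_eq_mul, mul_eq_zero] at h1
  rcases h1 with h1 | h1
  · exact absurd (ENNReal.ofReal_eq_zero.1 h1) (not_le.2 ha)
  · exact h1

theorem isCompact_orb (τ : GG s2 s3 t) (c : ℤ → ℂ) :
    IsCompact {ψ : GG s2 s3 t → ℂ | ψ ∈ TR (GG s2 s3 t) ∧ ∀ n : ℤ, ψ (τ ^ n) = c n} := by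
  have e : {ψ : GG s2 s3 t → ℂ | ψ ∈ TR (GG s2 s3 t) ∧ ∀ n : ℤ, ψ (τ ^ n) = c n} =
      TR (GG s2 s3 t) ∩ ⋂ n : ℤ, {ψ : GG s2 s3 t → ℂ | ψ (τ ^ n) = c n} := by
    ext ψ
    simp
  rw [e]
  exact isCompact_TR.inter_right (isClosed_iInter fun n =>
    isClosed_eq (continuous_apply _) continuous_const)

theorem orb_one (r : Tor) (i j : ℕ) (hi : 0 < i) (hj : 0 < j) (M : ℤ) (hM : M • r = 0) :
    orbFt r i j M = 1 := by
  unfold orbFt
  have e : ∀ a ∈ range i, ∑ b ∈ range j, (fourier M ((2 ^ a * 3 ^ b : ℕ) • r) : ℂ) = j := by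
    intro a _
    rw [Finset.sum_congr rfl (g := fun _ => (1 : ℂ)), Finset.sum_const, Finset.card_range,
      nsmul_eq_mul, mul_one]
    intro b _
    rw [fourier_apply, ← natCast_zsmul, smul_smul, mul_comm, mul_smul, hM, smul_zero,
      AddCircle.toCircle_zero]
    rfl
  rw [Finset.sum_congr rfl e, Finset.sum_const, Finset.card_range, nsmul_eq_mul]
  have hi' : (i : ℂ) ≠ 0 := by exact_mod_cast hi.ne'
  have hj' : (j : ℂ) ≠ 0 := by exact_mod_cast hj.ne'
  field_simp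

/-- An extreme trace of finite conditional dimension over a finite orbit. -/
theorem exists_extreme_orbit (h2 : ∀ x : ℚ, s2 x = 2 * x) (h3 : ∀ x : ℚ, s3 x = 3 * x)
    (ht : ∀ x : ℚ, t x = x + 1) {τ : GG s2 s3 t} (hτ : (τ : Equiv.Perm ℚ) = t)
    (r : Tor) (i j : ℕ) (hi : 0 < i) (hj : 0 < j) (hri : (2 ^ i : ℕ) • r = r)
    (hrj : (3 ^ j : ℕ) • r = r) :
    ∃ ψ : GG s2 s3 t → ℂ, ψ ∈ Set.extremePoints ℝ (TR (GG s2 s3 t)) ∧
      FiniteDimensional ℂ (Submodule.span ℂ {F : GG s2 s3 t → ℂ | ∃ n : GG s2 s3 t,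
        IsTr n ∧ F = fun x => ψ (n * x)}) ∧
      ∀ n : ℤ, ψ (τ ^ n) = orbFt r i j n := by
  haveI := orbM_prob r i j hi hj
  obtain ⟨g, hg, -, hgn⟩ := Helper35.IP.exists_trace h2 h3 ht hτ (orbM_inv r i j hi hj hri hrj)
  have hne : {ψ : GG s2 s3 t → ℂ | ψ ∈ TR (GG s2 s3 t) ∧
      ∀ n : ℤ, ψ (τ ^ n) = orbFt r i j n}.Nonempty :=
    ⟨g, hg, fun n => by rw [← hgn, ft_orbM]⟩
  obtain ⟨ψ, hψ⟩ := (isCompact_orb τ (orbFt r i j)).extremePoints_nonempty hne
  have hψ' := (isExtreme_orb h2 h3 ht hτ r i j hi hj hri hrj).extremePoints_subset_extremePoints hψ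
  have hval : ∀ n : ℤ, ψ (τ ^ n) = orbFt r i j n := hψ.1.2
  refine ⟨ψ, hψ', ?_, hval⟩
  have hφ1 : ψ 1 = 1 := hψ'.1.1
  have hφc := hψ'.1.2.1
  have hFφ : Fact (PD ψ) := ⟨hψ'.1.2.2⟩
  obtain ⟨σ2, σ3, τ', hσ2, hσ3, hτ', e2, e3, ecomm, hgen⟩ := relations h2 h3 ht
  have hττ' : τ' = τ := Subtype.ext (by rw [hτ', hτ])
  rw [hττ'] at e2 e3 hgen
  have hP : ∀ j : ℤ, (σ2 * σ3) * τ ^ j * (σ2 * σ3)⁻¹ = τ ^ (6 * j) := by
    intro j
    have e : (σ2 * σ3) * τ ^ j * (σ2 * σ3)⁻¹ = σ2 * (σ3 * τ ^ j * σ3⁻¹) * σ2⁻¹ := by group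
    rw [e, conj_pow3 e3, Helper17.FU.conj_pow e2]
    congr 1; ring
  have hM0 : ((2 : ℤ) ^ i - 1) ≠ 0 := by
    have : (2 : ℤ) ^ 1 ≤ 2 ^ i := pow_le_pow_right₀ (by norm_num) hi
    omega
  have hMr : ((2 : ℤ) ^ i - 1) • r = 0 := by
    rw [sub_smul, one_smul, sub_eq_zero]
    conv_rhs => rw [← hri]
    rw [← natCast_zsmul]
    push_cast
    rfl
  exact Helper91.TTT.fd_of_kernel hφ1 hφc (σ2 * σ3) τ hP hM0
    (by rw [hval]; exact orb_one r i j hi hj _ hMr)
    {n | IsTr n} (fun n hn => Helper91.TTT.trans_conj h2 h3 ht hσ2 hσ3 hτ n hn)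

end Helper36.LIMA
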